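import Mathlib

set_option autoImplicit false

namespace Pool.WT

/-- `G ≀ Sym(7)`. -/
abbrev Wr (G : Type*) [Group G] :=
  (Fin 7 → G) ⋊[mulAutArrow] Equiv.Perm (Fin 7)

/-- A two-variable map is separately continuous if it is continuous in each variable when the
other one is fixed. -/
def SeparatelyContinuous {H : Type*} [TopologicalSpace H] (f : H → H → H) : Prop :=
  (∀ a : H, Continuous fun x : H => f x a) ∧ (∀ a : H, Continuous fun x : H => f a x)

/-- [quasi]-topological groups: `x y⁻¹` and `x y x⁻¹ y⁻¹` are separately continuous. -/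
def IsQuasiTop (H : Type*) [Group H] [TopologicalSpace H] : Prop :=
  SeparatelyContinuous (fun x y : H => x * y⁻¹) ∧
    SeparatelyContinuous (fun x y : H => x * y * x⁻¹ * y⁻¹)

/-- [semi]-topological groups: `x y` and `x y x⁻¹ y⁻¹` are separately continuous. -/
def IsSemiTop (H : Type*) [Group H] [TopologicalSpace H] : Prop :=
  SeparatelyContinuous (fun x y : H => x * y) ∧
    SeparatelyContinuous (fun x y : H => x * y * x⁻¹ * y⁻¹)

/-- `G` has a nondiscrete Hausdorff group topology. -/
def Topologizable (G : Type) [Group G] : Prop :=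
  ∃ t : TopologicalSpace G, @IsTopologicalGroup G t _ ∧ @T2Space G t ∧ ¬ @DiscreteTopology G t

/-- `G` has a nondiscrete Hausdorff topology making it a [quasi]-topological group. -/
def QuasiTopologizable (G : Type) [Group G] : Prop :=
  ∃ t : TopologicalSpace G, @IsQuasiTop G _ t ∧ @T2Space G t ∧ ¬ @DiscreteTopology G t

/-- `G` has a nondiscrete Hausdorff topology making it a [semi]-topological group. -/
def SemiTopologizable (G : Type) [Group G] : Prop :=
  ∃ t : TopologicalSpace G, @IsSemiTop G _ t ∧ @T2Space G t ∧ ¬ @DiscreteTopology G t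

/-- `G` has a nondiscrete `T₁` topology making it a [semi]-topological group. -/
def SemiTopologizableT1 (G : Type) [Group G] : Prop :=
  ∃ t : TopologicalSpace G, @IsSemiTop G _ t ∧ @T1Space G t ∧ ¬ @DiscreteTopology G t

end Pool.WT
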