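import Pool.Agent.H70.WT.Defs

/-!
# Nontopologizable groups and [quasi]-, [semi]-topological groups

For a countable group `G` the wreath product `W = G ≀ Sym(7)` has a nondiscrete Hausdorff topology
making it a [semi]-topological group if and only if `G` has a nondiscrete Hausdorff group topology.

* Markov: a countable group `G` without nondiscrete Hausdorff group topologies satisfies `AD G`:
  finitely many equations `f x = 1` (`f` a one-variable word with coefficients in `G`,
  `f 1 ≠ 1`) cover `G \ {1}`.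
* then some finite set has a finite centralizer (Neumann's lemma on coset coverings);
* in `W` the commutator maps `u ↦ u b u⁻¹ b⁻¹` act on the base group `G⁷` by
  `u j ↦ u j * g j * (u (π⁻¹ j))⁻¹ * (g j)⁻¹` and are rich enough to evaluate every word.
-/

set_option autoImplicit false

namespace Pool.WT

/-- one-variable word functions -/
inductive IsPoly {G : Type*} [Group G] : (G → G) → Prop
  | const (a : G) : IsPoly (fun _ => a)
  | mulX {f : G → G} (a : G) : IsPoly f → IsPoly (fun x => f x * x * a)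
  | mulXinv {f : G → G} (a : G) : IsPoly f → IsPoly (fun x => f x * x⁻¹ * a)

variable {G : Type*} [Group G]

theorem IsPoly.mul_const {f : G → G} (hf : IsPoly f) (b : G) : IsPoly (fun x => f x * b) := by
  cases hf with
  | const a => exact IsPoly.const (a * b)
  | @mulX f a h =>
    have : (fun x => f x * x * a * b) = (fun x => f x * x * (a * b)) := by
      funext x; simp [mul_assoc]
    rw [this]; exact h.mulX _
  | @mulXinv f a h =>
    have : (fun x => f x * x⁻¹ * a * b) = (fun x => f x * x⁻¹ * (a * b)) := by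
      funext x; simp [mul_assoc]
    rw [this]; exact h.mulXinv _

theorem IsPoly.mul {f g : G → G} (hf : IsPoly f) (hg : IsPoly g) :
    IsPoly (fun x => f x * g x) := by
  induction hg with
  | const a => exact hf.mul_const a
  | @mulX g a h ih =>
    have : (fun x => f x * (g x * x * a)) = (fun x => (f x * g x) * x * a) := by
      funext x; simp [mul_assoc]
    rw [this]; exact ih.mulX _
  | @mulXinv g a h ih =>
    have : (fun x => f x * (g x * x⁻¹ * a)) = (fun x => (f x * g x) * x⁻¹ * a) := by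
      funext x; simp [mul_assoc]
    rw [this]; exact ih.mulXinv _

theorem IsPoly.id : IsPoly (fun x : G => x) := by
  simpa using (IsPoly.const (1 : G)).mulX 1

theorem IsPoly.inv_id : IsPoly (fun x : G => x⁻¹) := by
  simpa using (IsPoly.const (1 : G)).mulXinv 1

/-- `G \ {1}` is a finite union of solution sets of equations not solved by `1`. -/
def AD (G : Type*) [Group G] : Prop :=
  ∃ S : Set (G → G), S.Finite ∧ (∀ f ∈ S, IsPoly f ∧ f 1 ≠ 1) ∧ ∀ x : G, x ≠ 1 → ∃ f ∈ S, f x = 1

/-- the basic sets -/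
def V {G : Type*} [Group G] (g x : ℕ → G) : ℕ → ℕ → Set G
  | _, 0 => {1}
  | n, (m+1) => {1, x n, (x n)⁻¹} ∪ Set.image2 (fun a b => a * b) (V g x (n+1) m) (V g x (n+1) m)
      ∪ (⋃ i ∈ Set.Iic n, (fun a => g i * a * (g i)⁻¹) '' (V g x (n+1) m))

theorem V_finite (g x : ℕ → G) : ∀ m n, (V g x n m).Finite
  | 0, n => by simp [V]
  | (m+1), n => by
    rw [V]
    have h := V_finite g x m (n+1)
    refine ((Set.toFinite _).union (h.image2 _ h)).union ?_
    exact (Set.finite_Iic n).biUnion fun i _ => h.image _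

theorem one_mem_V (g x : ℕ → G) : ∀ m n, (1 : G) ∈ V g x n m
  | 0, n => by simp [V]
  | (m+1), n => by rw [V]; left; left; simp

theorem V_inv (g x : ℕ → G) : ∀ m n, ∀ a ∈ V g x n m, a⁻¹ ∈ V g x n m
  | 0, n => by simp [V]
  | (m+1), n => by
    intro a ha
    rw [V] at ha ⊢
    rcases ha with (ha | ha) | ha
    · left; left
      rcases ha with rfl | rfl | rfl <;> simp
    · left; right
      obtain ⟨b, hb, c, hc, rfl⟩ := ha
      exact ⟨c⁻¹, V_inv g x m _ c hc, b⁻¹, V_inv g x m _ b hb, by simp⟩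
    · right
      simp only [Set.mem_iUnion] at ha ⊢
      obtain ⟨i, hi, b, hb, rfl⟩ := ha
      exact ⟨i, hi, b⁻¹, V_inv g x m _ b hb, by simp [mul_assoc]⟩

theorem V_mono (g x : ℕ → G) : ∀ m n, V g x n m ⊆ V g x n (m+1)
  | 0, n => by
    intro a ha
    have : a = 1 := by simpa [V] using ha
    subst this
    exact one_mem_V g x _ _
  | (m+1), n => by
    have h := V_mono g x m (n+1)
    rw [V, V]
    refine Set.union_subset_union (Set.union_subset_union le_rfl (Set.image2_subset h h)) ?_
    exact Set.iUnion₂_mono fun i _ => Set.image_mono h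

theorem V_mono' (g x : ℕ → G) (n : ℕ) : Monotone (V g x n) :=
  monotone_nat_of_le_succ fun m => V_mono g x m n

theorem V_congr (g : ℕ → G) {x y : ℕ → G} : ∀ m n, (∀ i, n ≤ i → i < n + m → x i = y i) →
    V g x n m = V g y n m
  | 0, n => fun _ => by simp [V]
  | (m+1), n => fun h => by
    rw [V, V, V_congr g m (n+1) (fun i h1 h2 => h i (by omega) (by omega)), h n le_rfl (by omega)]

theorem V_last_one (g : ℕ → G) {x : ℕ → G} : ∀ m n, x (n + m) = 1 →
    V g x n (m+1) = V g x n m
  | 0, n => fun h => by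
    have h : x n = 1 := by simpa using h
    have : V g x (n+1) 0 = {1} := by simp [V]
    rw [V, V, this, h]
    ext a
    simp only [Set.mem_union, Set.mem_iUnion, Set.mem_singleton_iff]
    constructor
    · rintro ((ha | ha) | ha)
      · simpa using ha
      · obtain ⟨b, hb, c, hc, rfl⟩ := ha
        rw [Set.mem_singleton_iff] at hb hc
        simp [hb, hc]
      · obtain ⟨i, hi, b, hb, rfl⟩ := ha
        rw [Set.mem_singleton_iff] at hb
        simp [hb]
    · intro ha; left; left; simp [ha]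
  | (m+1), n => fun h => by
    rw [V, V_last_one g m (n+1) (by rw [← h]; congr 1; omega), ← V]

/-- naturality -/
theorem V_map {H : Type*} [Group H] (φ : H →* G) (g x : ℕ → H) : ∀ m n,
    V (fun i => φ (g i)) (fun i => φ (x i)) n m = φ '' (V g x n m)
  | 0, n => by simp [V]
  | (m+1), n => by
    rw [V, V, V_map φ g x m (n+1), Set.image_union, Set.image_union]
    congr 1
    · congr 1
      · simp [Set.image_insert_eq]
      · ext a
        simp only [Set.mem_image2, Set.mem_image]
        constructor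
        · rintro ⟨_, ⟨b, hb, rfl⟩, _, ⟨c, hc, rfl⟩, rfl⟩
          exact ⟨b * c, ⟨b, hb, c, hc, rfl⟩, by simp⟩
        · rintro ⟨_, ⟨b, hb, c, hc, rfl⟩, rfl⟩
          exact ⟨φ b, ⟨b, hb, rfl⟩, φ c, ⟨c, hc, rfl⟩, by simp⟩
    · rw [Set.image_iUnion₂]
      refine Set.iUnion₂_congr fun i _ => ?_
      ext a
      simp only [Set.mem_image]
      constructor
      · rintro ⟨_, ⟨b, hb, rfl⟩, rfl⟩
        exact ⟨_, ⟨b, hb, rfl⟩, by simp⟩
      · rintro ⟨_, ⟨b, hb, rfl⟩, rfl⟩
        exact ⟨_, ⟨b, hb, rfl⟩, by simp⟩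

theorem V_isPoly (g : ℕ → G) (ξ : ℕ → (G → G)) (hξ : ∀ i, IsPoly (ξ i) ∧ IsPoly (ξ i)⁻¹) :
    ∀ m n, ∀ f ∈ V (fun i => (fun _ : G => g i)) ξ n m, IsPoly f
  | 0, n => by
    intro f hf
    have : f = 1 := by simpa [V] using hf
    subst this
    exact IsPoly.const 1
  | (m+1), n => by
    intro f hf
    rw [V] at hf
    rcases hf with (hf | hf) | hf
    · rcases hf with rfl | rfl | rfl
      · exact IsPoly.const 1
      · exact (hξ n).1
      · exact (hξ n).2
    · obtain ⟨b, hb, c, hc, rfl⟩ := hf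
      exact (V_isPoly g ξ hξ m _ b hb).mul (V_isPoly g ξ hξ m _ c hc)
    · simp only [Set.mem_iUnion] at hf
      obtain ⟨i, hi, b, hb, rfl⟩ := hf
      exact ((IsPoly.const (g i)).mul (V_isPoly g ξ hξ m _ b hb)).mul (IsPoly.const (g i)⁻¹)



/-- the invariant of the recursion -/
def Inv (g x : ℕ → G) (k : ℕ) : Prop :=
  ∀ j, j < k → g j ≠ 1 → g j ∉ V g x j (k - j)

theorem Inv_congr (g : ℕ → G) {x y : ℕ → G} {k : ℕ} (h : ∀ i, i < k → x i = y i)
    (hx : Inv g x k) : Inv g y k := by
  intro j hj hg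
  rw [← V_congr g (x := x) (y := y) (k - j) j (fun i _ h2 => h i (by omega))]
  exact hx j hj hg

theorem step (hna : ¬ AD G) (g x : ℕ → G) (k : ℕ) (hx : Inv g x k) :
    ∃ y : G, y ≠ 1 ∧ Inv g (Function.update x k y) (k+1) := by
  classical
  -- the polynomial version
  let ξ : ℕ → (G → G) := fun i => if i = k then (fun X => X) else (fun _ => x i)
  have hξ : ∀ i, IsPoly (ξ i) ∧ IsPoly (ξ i)⁻¹ := by
    intro i
    by_cases hi : i = k
    · simp only [ξ, hi, if_true]
      exact ⟨IsPoly.id, IsPoly.inv_id⟩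
    · simp only [ξ, hi, if_false]
      exact ⟨IsPoly.const _, IsPoly.const _⟩
  have hev : ∀ (y : G) (j m : ℕ), V g (Function.update x k y) j m =
      (fun f : G → G => f y) '' V (fun i => (fun _ : G => g i)) ξ j m := by
    intro y j m
    have := V_map (Pi.evalMonoidHom (fun _ : G => G) y) (fun i => (fun _ : G => g i)) ξ m j
    have h2 : (fun i => (Pi.evalMonoidHom (fun _ : G => G) y) (ξ i)) = Function.update x k y := by
      funext i
      by_cases hi : i = k
      · subst hi; simp [ξ]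
      · simp [ξ, hi]
    rw [h2] at this
    exact this
  let S : Set (G → G) := ⋃ j ∈ {j | j ≤ k ∧ g j ≠ 1},
    (fun f : G → G => fun X => f X * (g j)⁻¹) '' V (fun i => (fun _ : G => g i)) ξ j (k + 1 - j)
  have hSfin : S.Finite := by
    refine Set.Finite.biUnion ((Set.finite_Iic k).subset (fun j hj => hj.1)) fun j _ => ?_
    exact (V_finite _ _ _ _).image _
  have hS1 : ∀ f ∈ S, IsPoly f ∧ f 1 ≠ 1 := by
    intro f hf
    simp only [S, Set.mem_iUnion] at hf
    obtain ⟨j, ⟨hj, hgj⟩, f, hf, rfl⟩ := hf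
    refine ⟨(V_isPoly g ξ hξ _ _ f hf).mul (IsPoly.const _), ?_⟩
    intro h1
    have h2 : f 1 = g j := by
      have := mul_inv_eq_one.mp h1
      exact this
    have h3 : g j ∈ V g (Function.update x k 1) j (k + 1 - j) := by
      rw [hev]; exact ⟨f, hf, h2⟩
    have h4 : V g (Function.update x k 1) j (k + 1 - j) = V g x j (k - j) := by
      have e : k + 1 - j = (k - j) + 1 := by omega
      rw [e, V_last_one g (k - j) j (by
        have : j + (k - j) = k := by omega
        rw [this]; simp)]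
      refine V_congr g _ _ fun i h1 h2 => ?_
      have : i ≠ k := by omega
      simp [this]
    rw [h4] at h3
    rcases Nat.lt_or_ge j k with hjk | hjk
    · exact hx j hjk hgj h3
    · have : k - j = 0 := by omega
      rw [this] at h3
      exact hgj (by simpa [V] using h3)
  by_contra hcon
  push Not at hcon
  apply hna
  refine ⟨S, hSfin, hS1, ?_⟩
  intro y hy
  have := hcon y hy
  unfold Inv at this
  push Not at this
  obtain ⟨j, hj, hgj, hmem⟩ := this
  rw [hev] at hmem
  obtain ⟨f, hf, hfy⟩ := hmem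
  refine ⟨fun X => f X * (g j)⁻¹, ?_, ?_⟩
  · simp only [S, Set.mem_iUnion]
    exact ⟨j, ⟨by omega, hgj⟩, f, hf, rfl⟩
  · simp only at hfy
    simp [hfy]

theorem exists_seq (hna : ¬ AD G) (g : ℕ → G) :
    ∃ x : ℕ → G, (∀ n, x n ≠ 1) ∧ ∀ j m, g j ≠ 1 → g j ∉ V g x j m := by
  classical
  -- sequence of sequences
  let st : (k : ℕ) → {x : ℕ → G // Inv g x k} → {x : ℕ → G // Inv g x (k+1)} := fun k x =>
    ⟨Function.update x.1 k (step hna g x.1 k x.2).choose, (step hna g x.1 k x.2).choose_spec.2⟩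
  let X : (k : ℕ) → {x : ℕ → G // Inv g x k} := fun k =>
    Nat.rec (motive := fun k => {x : ℕ → G // Inv g x k}) ⟨fun _ => 1, fun j hj => absurd hj (Nat.not_lt_zero j)⟩ st k
  have hX : ∀ k, X (k+1) = st k (X k) := fun k => rfl
  have hne : ∀ k, (X (k+1)).1 k ≠ 1 := by
    intro k
    rw [hX]
    simp only [st, Function.update_self]
    exact (step hna g (X k).1 k (X k).2).choose_spec.1
  have hagree : ∀ k l, k ≤ l → ∀ i, i < k → (X l).1 i = (X k).1 i := by
    intro k l hkl
    induction l, hkl using Nat.le_induction with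
    | base => intro i _; rfl
    | succ l hl ih =>
      intro i hi
      rw [hX]
      simp only [st]
      rw [Function.update_of_ne (by omega)]
      exact ih i hi
  refine ⟨fun n => (X (n+1)).1 n, hne, ?_⟩
  intro j m hgj hmem
  have hInv : Inv g (fun n => (X (n+1)).1 n) (j + m + 1) := by
    refine Inv_congr g ?_ (X (j + m + 1)).2
    intro i hi
    exact hagree (i+1) (j+m+1) (by omega) i (by omega)
  have := hInv j (by omega) hgj
  apply this
  exact V_mono' g _ j (by omega : m ≤ j + m + 1 - j) hmem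

/-- **Markov's criterion** for countable groups. -/
theorem markov [Countable G] (hna : ¬ AD G) :
    ∃ t : TopologicalSpace G, @IsTopologicalGroup G t _ ∧ @T2Space G t ∧
      ¬ @DiscreteTopology G t := by
  obtain ⟨g, hg⟩ := exists_surjective_nat G
  obtain ⟨x, hx1, hx⟩ := exists_seq hna g
  let U : ℕ → Set G := fun n => ⋃ m, V g x n m
  have hU1 : ∀ n, (1 : G) ∈ U n := fun n => Set.mem_iUnion.mpr ⟨0, one_mem_V g x 0 n⟩
  have hUmul : ∀ n, ∀ a ∈ U (n+1), ∀ b ∈ U (n+1), a * b ∈ U n := by
    intro n a ha b hb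
    obtain ⟨m, hm⟩ := Set.mem_iUnion.mp ha
    obtain ⟨m', hm'⟩ := Set.mem_iUnion.mp hb
    refine Set.mem_iUnion.mpr ⟨max m m' + 1, ?_⟩
    rw [V]
    left; right
    exact ⟨a, V_mono' g x _ (le_max_left _ _) hm, b, V_mono' g x _ (le_max_right _ _) hm', rfl⟩
  have hUanti : ∀ n, U (n+1) ⊆ U n := fun n a ha => by
    simpa using hUmul n a ha 1 (hU1 _)
  have hUanti' : Antitone U := antitone_nat_of_succ_le hUanti
  have hUinv : ∀ n, ∀ a ∈ U n, a⁻¹ ∈ U n := by
    intro n a ha
    obtain ⟨m, hm⟩ := Set.mem_iUnion.mp ha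
    exact Set.mem_iUnion.mpr ⟨m, V_inv g x m n a hm⟩
  have hUconj : ∀ n i, i ≤ n → ∀ a ∈ U (n+1), g i * a * (g i)⁻¹ ∈ U n := by
    intro n i hi a ha
    obtain ⟨m, hm⟩ := Set.mem_iUnion.mp ha
    refine Set.mem_iUnion.mpr ⟨m + 1, ?_⟩
    rw [V]
    right
    simp only [Set.mem_iUnion]
    exact ⟨i, hi, a, hm, rfl⟩
  have hUx : ∀ n, x n ∈ U n := fun n => Set.mem_iUnion.mpr ⟨1, by rw [V]; left; left; simp⟩
  let B : GroupFilterBasis G :=
    { sets := Set.range U
      nonempty := ⟨U 0, 0, rfl⟩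
      inter_sets := by
        rintro _ _ ⟨n, rfl⟩ ⟨m, rfl⟩
        exact ⟨U (max n m), ⟨_, rfl⟩, Set.subset_inter (hUanti' (le_max_left _ _))
          (hUanti' (le_max_right _ _))⟩
      one' := by
        rintro _ ⟨n, rfl⟩
        exact hU1 n
      mul' := by
        rintro _ ⟨n, rfl⟩
        refine ⟨U (n+1), ⟨_, rfl⟩, ?_⟩
        rintro _ ⟨a, ha, b, hb, rfl⟩
        exact hUmul n a ha b hb
      inv' := by
        rintro _ ⟨n, rfl⟩
        exact ⟨U n, ⟨_, rfl⟩, fun a ha => hUinv n a ha⟩
      conj' := by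
        rintro a _ ⟨n, rfl⟩
        obtain ⟨i, rfl⟩ := hg a
        refine ⟨U (max n i + 1), ⟨_, rfl⟩, ?_⟩
        intro b hb
        exact hUanti' (le_max_left n i) (hUconj _ i (le_max_right _ _) b hb) }
  let t : TopologicalSpace G := B.topology
  have htg : IsTopologicalGroup G := B.isTopologicalGroup
  have hbasis := B.nhds_one_hasBasis
  refine ⟨t, htg, ?_, ?_⟩
  · refine IsTopologicalGroup.t2Space_of_one_sep ?_
    intro a ha
    obtain ⟨i, rfl⟩ := hg a
    refine ⟨U i, hbasis.mem_of_mem ⟨i, rfl⟩, ?_⟩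
    intro hmem
    obtain ⟨m, hm⟩ := Set.mem_iUnion.mp hmem
    exact hx i m ha hm
  · intro hd
    have h1 : ({1} : Set G) ∈ nhds (1 : G) := by
      rw [nhds_discrete]; simp
    obtain ⟨W, ⟨n, rfl⟩, hW⟩ := hbasis.mem_iff.mp h1
    exact hx1 n (by simpa using hW (hUx n))


/-! ### finite sets with finite centralizer -/

open Pointwise

theorem IsPoly.centralizer {f : G → G} (hf : IsPoly f) :
    ∃ (K : Set G) (d : ℤ), K.Finite ∧ ∀ x ∈ Subgroup.centralizer K, f x = f 1 * x ^ d := by
  induction hf with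
  | const a => exact ⟨∅, 0, Set.finite_empty, fun x _ => by simp⟩
  | @mulX f a h ih =>
    obtain ⟨K, d, hK, hx⟩ := ih
    refine ⟨insert a K, d + 1, hK.insert a, fun x hxc => ?_⟩
    have h1 : x ∈ Subgroup.centralizer K := Subgroup.centralizer_le (Set.subset_insert a K) hxc
    have h2 : a * x = x * a := (Subgroup.mem_centralizer_iff.mp hxc) a (Set.mem_insert a K)
    have h3 : Commute a x := h2
    show f x * x * a = f 1 * 1 * a * x ^ (d + 1)
    rw [hx x h1, mul_one, mul_assoc (f 1) (x ^ d) x, mul_assoc (f 1), mul_assoc (f 1),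
      ← zpow_add_one]
    congr 1
    exact ((h3.zpow_right (d + 1)).eq).symm
  | @mulXinv f a h ih =>
    obtain ⟨K, d, hK, hx⟩ := ih
    refine ⟨insert a K, d - 1, hK.insert a, fun x hxc => ?_⟩
    have h1 : x ∈ Subgroup.centralizer K := Subgroup.centralizer_le (Set.subset_insert a K) hxc
    have h2 : a * x = x * a := (Subgroup.mem_centralizer_iff.mp hxc) a (Set.mem_insert a K)
    have h3 : Commute a x := h2
    show f x * x⁻¹ * a = f 1 * 1⁻¹ * a * x ^ (d - 1)
    rw [hx x h1, inv_one, mul_one, mul_assoc (f 1) (x ^ d) x⁻¹, mul_assoc (f 1), mul_assoc (f 1),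
      ← zpow_sub_one]
    congr 1
    exact ((h3.zpow_right (d - 1)).eq).symm

theorem AD.exists_finite_centralizer (h : AD G) :
    ∃ K : Set G, K.Finite ∧ (Subgroup.centralizer K : Set G).Finite := by
  classical
  obtain ⟨S, hS, hS1, hcov⟩ := h
  choose! K d hKfin hKd using fun (f : G → G) (hf : f ∈ S) => (hS1 f hf).1.centralizer
  let K0 : Set G := ⋃ f ∈ S, K f
  have hK0 : K0.Finite := hS.biUnion fun f hf => hKfin f hf
  have hKle : ∀ f ∈ S, ∀ x ∈ Subgroup.centralizer K0, x ∈ Subgroup.centralizer (K f) :=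
    fun f hf x hx => Subgroup.centralizer_le (Set.subset_biUnion_of_mem hf) hx
  let 𝒜 : Set (Set G) := {T | T ⊆ Subgroup.centralizer K0 ∧ ∀ a ∈ T, ∀ b ∈ T, a * b = b * a}
  obtain ⟨T, hTmax⟩ := zorn_subset 𝒜 (by
    intro c hc hchain
    refine ⟨⋃₀ c, ⟨?_, ?_⟩, fun s hs => Set.subset_sUnion_of_mem hs⟩
    · exact Set.sUnion_subset fun s hs => (hc hs).1
    · rintro a ⟨s, hs, ha⟩ b ⟨s', hs', hb⟩
      rcases hchain.total hs hs' with h | h
      · exact (hc hs').2 a (h ha) b hb
      · exact (hc hs).2 a ha b (h hb))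
  have hTA : T ∈ 𝒜 := hTmax.prop
  -- `T` is finite
  have hTfin : T.Finite := by
    by_contra hinf
    -- the subgroup generated by `T`
    let Bs : Subgroup G := Subgroup.closure T
    let _ : CommGroup Bs :=
      { (inferInstance : Group Bs) with
        mul_comm := (Subgroup.isMulCommutative_closure hTA.2).is_comm.comm }
    have hBs : ∀ b : Bs, (b : G) ∈ Subgroup.centralizer K0 := fun b =>
      (Subgroup.closure_le _).mpr hTA.1 b.2
    let H : Option (G → G) → Subgroup Bs := fun o =>
      o.elim ⊥ (fun f => (zpowGroupHom (d f) : Bs →* Bs).ker)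
    let γ : Option (G → G) → Bs := fun o =>
      o.elim 1 (fun f => if h : ∃ b : Bs, f b = 1 then h.choose else 1)
    let s : Finset (Option (G → G)) :=
      insert none ((hS.toFinset.filter (fun f => ∃ b : Bs, f b = 1)).image some)
    have hγ : ∀ f ∈ S, (∃ b : Bs, f b = 1) → f (γ (some f)) = 1 := by
      intro f hf h
      have : γ (some f) = h.choose := by simp only [γ, Option.elim_some, dif_pos h]
      rw [this]; exact h.choose_spec
    have hpow : ∀ f ∈ S, ∀ b : Bs, f b = 1 → ((b ^ (d f) : Bs) : G) = (f 1)⁻¹ := by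
      intro f hf b hb
      rw [hKd f hf b (hKle f hf b (hBs b))] at hb
      rw [← eq_inv_of_mul_eq_one_right hb]
      rfl
    have hcover : ⋃ i ∈ s, (γ i) • (H i : Set Bs) = Set.univ := by
      rw [Set.eq_univ_iff_forall]
      intro b
      simp only [Set.mem_iUnion]
      by_cases hb : b = 1
      · refine ⟨none, by simp [s], ?_⟩
        simp [H, γ, hb]
      · obtain ⟨f, hf, hfb⟩ := hcov (b : G) (fun h => hb (Subtype.ext h))
        refine ⟨some f, ?_, ?_⟩
        · simp only [s, Finset.mem_insert, Finset.mem_image, Finset.mem_filter,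
            Set.Finite.mem_toFinset, reduceCtorEq, Option.some.injEq, false_or]
          exact ⟨f, ⟨hf, b, hfb⟩, rfl⟩
        · rw [Set.mem_smul_set_iff_inv_smul_mem]
          show (zpowGroupHom (d f) : Bs →* Bs) ((γ (some f))⁻¹ * b) = 1
          have e1 := hpow f hf b hfb
          have e2 := hpow f hf _ (hγ f hf ⟨b, hfb⟩)
          have e3 : b ^ (d f) = (γ (some f)) ^ (d f) := Subtype.ext (by rw [e1, e2])
          show ((γ (some f))⁻¹ * b) ^ (d f) = 1
          rw [mul_zpow, e3, ← mul_zpow]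
          simp
    have hcover2 := Subgroup.leftCoset_cover_filter_FiniteIndex hcover
    have h1 : (1 : Bs) ∈ ⋃ k ∈ s.filter (fun i => (H i).FiniteIndex), γ k • (H k : Set Bs) := by
      rw [hcover2]; trivial
    simp only [Set.mem_iUnion] at h1
    obtain ⟨k, hk, hk1⟩ := h1
    rw [Finset.mem_filter] at hk
    rcases k with _ | f
    · have hfi : (⊥ : Subgroup Bs).FiniteIndex := hk.2
      have hfin : Finite Bs := by
        have := Subgroup.finite_quotient_of_finiteIndex (H := (⊥ : Subgroup Bs))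
        exact Finite.of_equiv _ (QuotientGroup.quotientBot (G := Bs)).toEquiv
      apply hinf
      exact (Set.toFinite (Bs : Set G)).subset Subgroup.subset_closure
    · have hfS : f ∈ S ∧ ∃ b : Bs, f b = 1 := by
        have := hk.1
        simp only [s, Finset.mem_insert, Finset.mem_image, Finset.mem_filter,
            Set.Finite.mem_toFinset, reduceCtorEq, Option.some.injEq, false_or] at this
        obtain ⟨f', ⟨h1, h2⟩, rfl⟩ := this
        exact ⟨h1, h2⟩
      rw [Set.mem_smul_set_iff_inv_smul_mem] at hk1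
      have hk2 : (zpowGroupHom (d f) : Bs →* Bs) ((γ (some f))⁻¹ * 1) = 1 := hk1
      have hk3 : ((γ (some f))⁻¹ * 1) ^ (d f) = 1 := hk2
      rw [mul_one, inv_zpow, inv_eq_one] at hk3
      have e2 := hpow f hfS.1 _ (hγ f hfS.1 hfS.2)
      rw [hk3] at e2
      apply (hS1 f hfS.1).2
      simpa using e2.symm
  refine ⟨K0 ∪ T, hK0.union hTfin, hTfin.subset ?_⟩
  intro z hz
  have hz1 : z ∈ Subgroup.centralizer K0 :=
    Subgroup.centralizer_le Set.subset_union_left hz
  have hz2 : ∀ b ∈ T, b * z = z * b := fun b hb =>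
    (Subgroup.mem_centralizer_iff.mp hz) b (Set.mem_union_right _ hb)
  have hins : insert z T ∈ 𝒜 := by
    refine ⟨Set.insert_subset hz1 hTA.1, ?_⟩
    rintro a (rfl | ha) b (rfl | hb)
    · rfl
    · exact (hz2 b hb).symm
    · exact hz2 a ha
    · exact hTA.2 a ha b hb
  exact hTmax.le_of_ge hins (Set.subset_insert z T) (Set.mem_insert z T)


/-! ### the wreath product -/

open SemidirectProduct

/-- The commutator map. -/
def cm {H : Type*} [Group H] (b X : H) : H := X * b * X⁻¹ * b⁻¹

theorem cm_one {H : Type*} [Group H] (b : H) : cm b 1 = 1 := by simp [cm]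

theorem arrow_apply (σ : Equiv.Perm (Fin 7)) (v : Fin 7 → G) (j : Fin 7) :
    (mulAutArrow σ : MulAut (Fin 7 → G)) v j = v (σ⁻¹ j) := rfl

theorem cm_inl (u g : Fin 7 → G) (π : Equiv.Perm (Fin 7)) :
    cm (⟨g, π⟩ : Wr G) (inl u) = inl (fun j => u j * g j * (u (π⁻¹ j))⁻¹ * (g j)⁻¹) := by
  ext j
  · simp [cm, mul_assoc]
    rfl
  · simp [cm]

theorem cm_inl_inr (u : Fin 7 → G) (π : Equiv.Perm (Fin 7)) :
    cm (inr π : Wr G) (inl u) = inl (fun j => u j * (u (π⁻¹ j))⁻¹) := by
  have := cm_inl u 1 π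
  simpa using this

theorem cm_inl_inl (u g : Fin 7 → G) :
    cm (inl g : Wr G) (inl u) = inl (fun j => u j * g j * (u j)⁻¹ * (g j)⁻¹) := by
  have := cm_inl u g 1
  simpa using this

theorem conj_inr (u : Fin 7 → G) (π : Equiv.Perm (Fin 7)) :
    (inr π * inl u * (inr π)⁻¹ : Wr G) = inl (fun j => u (π⁻¹ j)) := by
  ext j
  · simp
    rfl
  · simp

/-- first working permutation, with inverse `0 → 2 → 3 → 1 → 4 → 0` -/
def πa : Equiv.Perm (Fin 7) := ⟨![4,3,0,2,1,5,6], ![2,4,3,1,0,5,6], by decide, by decide⟩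

/-- second working permutation, with inverse `0 → 1 → 3 → 2 → 4 → 0` -/
def πb : Equiv.Perm (Fin 7) := ⟨![4,0,3,1,2,5,6], ![1,3,4,2,0,5,6], by decide, by decide⟩

/-- exchanges `3,5` and `4,6` -/
def ρρ : Equiv.Perm (Fin 7) := ⟨![0,1,2,5,6,3,4], ![0,1,2,5,6,3,4], by decide, by decide⟩

theorem cm_πa (v y p q : G) : cm (inr πa : Wr G) (inl ![v, y, y⁻¹, 1, 1, p, q]) =
    inl ![v * y, y, y⁻¹, y⁻¹, v⁻¹, 1, 1] := by
  rw [cm_inl_inr]
  congr 1
  funext j
  fin_cases j <;> simp [πa, Equiv.Perm.inv_def, Equiv.symm]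

theorem cm_πb (v y p q : G) : cm (inr πb : Wr G) (inl ![v, y, y⁻¹, 1, 1, p, q]) =
    inl ![v * y⁻¹, y, y⁻¹, y, v⁻¹, 1, 1] := by
  rw [cm_inl_inr]
  congr 1
  funext j
  fin_cases j <;> simp [πb, Equiv.Perm.inv_def, Equiv.symm]

theorem conj_ρρ (a b c d e : G) : (inr ρρ * inl ![a, b, c, d, e, 1, 1] * (inr ρρ)⁻¹ : Wr G) =
    inl ![a, b, c, 1, 1, d, e] := by
  rw [conj_inr]
  congr 1
  funext j
  fin_cases j <;> simp [ρρ, Equiv.Perm.inv_def, Equiv.symm]

theorem IsPoly.realize [TopologicalSpace (Wr G)] (hs : IsSemiTop (Wr G)) {f : G → G}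
    (hf : IsPoly f) : ∃ F : Wr G → Wr G, Continuous F ∧
      ∀ y : G, ∃ p q : G, F (inl ![1, y, y⁻¹, 1, 1, 1, 1]) = inl ![f y, y, y⁻¹, 1, 1, p, q] := by
  induction hf with
  | const a =>
    refine ⟨fun X => inl ![a, 1, 1, 1, 1, 1, 1] * X, hs.1.2 _, fun y => ⟨1, 1, ?_⟩⟩
    show inl _ * inl _ = _
    rw [← map_mul]
    congr 1
    funext j
    fin_cases j <;> simp
  | @mulX f a h ih =>
    obtain ⟨F, hF, hFy⟩ := ih
    refine ⟨fun X => (inr ρρ * cm (inr πa) (F X) * (inr ρρ)⁻¹) * inl ![a, 1, 1, 1, 1, 1, 1],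
      ?_, fun y => ?_⟩
    · exact (hs.1.1 _).comp ((hs.1.1 _).comp ((hs.1.2 _).comp ((hs.2.1 _).comp hF)))
    · obtain ⟨p, q, hpq⟩ := hFy y
      refine ⟨y⁻¹, (f y)⁻¹, ?_⟩
      simp only [hpq]
      rw [cm_πa, conj_ρρ, ← map_mul]
      congr 1
      funext j
      fin_cases j <;> simp
  | @mulXinv f a h ih =>
    obtain ⟨F, hF, hFy⟩ := ih
    refine ⟨fun X => (inr ρρ * cm (inr πb) (F X) * (inr ρρ)⁻¹) * inl ![a, 1, 1, 1, 1, 1, 1],
      ?_, fun y => ?_⟩
    · exact (hs.1.1 _).comp ((hs.1.1 _).comp ((hs.1.2 _).comp ((hs.2.1 _).comp hF)))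
    · obtain ⟨p, q, hpq⟩ := hFy y
      refine ⟨y, (f y)⁻¹, ?_⟩
      simp only [hpq]
      rw [cm_πb, conj_ρρ, ← map_mul]
      congr 1
      funext j
      fin_cases j <;> simp

theorem IsPoly.detect [TopologicalSpace (Wr G)] (hs : IsSemiTop (Wr G)) {f : G → G}
    (hf : IsPoly f) : ∃ F : Wr G → Wr G, Continuous F ∧
      ∀ y : G, F (inl ![1, y, y⁻¹, 1, 1, 1, 1]) = inl ![f y, 1, 1, (f y)⁻¹, 1, 1, 1] := by
  obtain ⟨F, hF, hFy⟩ := hf.realize hs
  refine ⟨fun X => cm (inr (Equiv.swap 0 3)) (F X), (hs.2.1 _).comp hF, fun y => ?_⟩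
  obtain ⟨p, q, hpq⟩ := hFy y
  simp only [hpq]
  rw [cm_inl_inr]
  congr 1
  funext j
  fin_cases j <;> simp [Equiv.swap_apply_def, Equiv.Perm.inv_def]


/-- The distinguished elements. -/
def st (y : G) : Wr G := inl ![1, y, y⁻¹, 1, 1, 1, 1]

theorem st_one : st (1 : G) = 1 := by
  have : (![1, 1, 1⁻¹, 1, 1, 1, 1] : Fin 7 → G) = 1 := by
    funext j
    fin_cases j <;> simp
  rw [st, this, map_one]

theorem cm_swap_eq_st (v : Fin 7 → G) :
    cm (inr (Equiv.swap 1 2) : Wr G) (inl v) = st (v 1 * (v 2)⁻¹) := by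
  rw [cm_inl_inr, st]
  congr 1
  funext j
  fin_cases j <;> simp [Equiv.swap_apply_def, Equiv.Perm.inv_def]

section topo

variable [TopologicalSpace (Wr G)] [T1Space (Wr G)]

open Filter Topology

omit [T1Space (Wr G)] in
theorem IsSemiTop.cm (hs : IsSemiTop (Wr G)) (b : Wr G) : Continuous (cm b) := hs.2.1 b

theorem key (hs : IsSemiTop (Wr G)) (hG : AD G) (T : Wr G → Wr G) (hT : Continuous T)
    (hT1 : T 1 = 1) : ∀ᶠ X in 𝓝 (1 : Wr G), ∀ y : G, T X = st y → y = 1 := by
  obtain ⟨S, hS, hS1, hcov⟩ := hG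
  choose! Φ hΦ hΦy using fun (f : G → G) (hf : f ∈ S) => (hS1 f hf).1.detect hs
  have h1 : ∀ᶠ X in 𝓝 (1 : Wr G), ∀ f ∈ S, Φ f (T X) ≠ 1 := by
    rw [Filter.eventually_all_finite hS]
    intro f hf
    have hc : Continuous fun X => Φ f (T X) := (hΦ f hf).comp hT
    have hne : Φ f (T 1) ≠ 1 := by
      rw [hT1, ← st_one, st, hΦy f hf]
      intro h
      apply (hS1 f hf).2
      have := congrFun (congrArg SemidirectProduct.left h) 0
      simpa using this
    exact hc.continuousAt.eventually_ne hne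
  filter_upwards [h1] with X hX y hy
  by_contra hy1
  obtain ⟨f, hf, hfy⟩ := hcov y hy1
  apply hX f hf
  rw [hy, st, hΦy f hf, hfy]
  have : (![1, 1, 1, 1⁻¹, 1, 1, 1] : Fin 7 → G) = 1 := by
    funext j
    fin_cases j <;> simp
  rw [this, map_one]

theorem base_diag (hs : IsSemiTop (Wr G)) (hG : AD G) :
    ∀ᶠ X in 𝓝 (1 : Wr G), ∀ v : Fin 7 → G, X = inl v → ∀ i j, v i = v j := by
  have h1 : ∀ᶠ X in 𝓝 (1 : Wr G), ∀ σ : Equiv.Perm (Fin 7), ∀ v : Fin 7 → G, X = inl v →
      v (σ⁻¹ 1) = v (σ⁻¹ 2) := by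
    rw [Filter.eventually_all]
    intro σ
    let T : Wr G → Wr G := fun X => cm (inr (Equiv.swap 1 2)) (inr σ * X * (inr σ)⁻¹)
    have hT : Continuous T := (hs.cm _).comp ((hs.1.1 _).comp (hs.1.2 _))
    have hT1 : T 1 = 1 := by simp [T, cm]
    filter_upwards [key hs hG T hT hT1] with X hX v hv
    have := hX (v (σ⁻¹ 1) * (v (σ⁻¹ 2))⁻¹) (by
      simp only [T, hv]
      rw [conj_inr, cm_swap_eq_st])
    exact mul_inv_eq_one.mp this
  filter_upwards [h1] with X hX v hv i j
  by_cases hij : i = j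
  · rw [hij]
  · -- a permutation with `σ⁻¹ 1 = i`, `σ⁻¹ 2 = j`
    obtain ⟨τ, h1, h2⟩ : ∃ τ : Equiv.Perm (Fin 7), τ 1 = i ∧ τ 2 = j := by
      refine ⟨Equiv.swap (Equiv.swap 1 i 2) j * Equiv.swap 1 i, ?_, ?_⟩
      · rw [Equiv.Perm.mul_apply, Equiv.swap_apply_left]
        refine Equiv.swap_apply_of_ne_of_ne ?_ hij
        intro h
        have h2 : Equiv.swap (1 : Fin 7) i 1 = Equiv.swap 1 i 2 := by
          rw [Equiv.swap_apply_left]; exact h
        exact absurd ((Equiv.swap (1 : Fin 7) i).injective h2) (by decide)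
      · rw [Equiv.Perm.mul_apply, Equiv.swap_apply_left]
    have := hX τ⁻¹ v hv
    rw [inv_inv, h1, h2] at this
    exact this

theorem base_one (hs : IsSemiTop (Wr G)) (hG : AD G) :
    ∀ᶠ X in 𝓝 (1 : Wr G), ∀ v : Fin 7 → G, X = inl v → X = 1 := by
  obtain ⟨K, hK, hKc⟩ := hG.exists_finite_centralizer
  have h1 : ∀ᶠ X in 𝓝 (1 : Wr G), ∀ g ∈ K, ∀ v : Fin 7 → G, X = inl v →
      v 1 * g * (v 1)⁻¹ * g⁻¹ = 1 := by
    rw [Filter.eventually_all_finite hK]
    intro g hg
    let T : Wr G → Wr G := fun X => cm (inr (Equiv.swap 1 2)) (cm (inl (Pi.mulSingle 1 g)) X)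
    have hT : Continuous T := (hs.cm _).comp (hs.cm _)
    have hT1 : T 1 = 1 := by simp [T, cm]
    filter_upwards [key hs hG T hT hT1] with X hX v hv
    refine hX _ ?_
    simp only [T, hv]
    rw [cm_inl_inl, cm_swap_eq_st]
    congr 1
    simp
  have h2 : ∀ᶠ X in 𝓝 (1 : Wr G), ∀ z ∈ (Subgroup.centralizer K : Set G), z ≠ 1 →
      X ≠ inl (fun _ => z) := by
    rw [Filter.eventually_all_finite hKc]
    intro z hz
    by_cases hz1 : z = 1
    · simp [hz1]
    · have : (1 : Wr G) ≠ inl (fun _ => z) := by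
        intro h
        apply hz1
        have := congrFun (congrArg SemidirectProduct.left h) 0
        simpa using this.symm
      filter_upwards [continuous_id.continuousAt.eventually_ne this] with X hX _
      exact hX
  filter_upwards [h1, h2, base_diag hs hG] with X hX1 hX2 hX3 v hv
  have hz : v 1 ∈ (Subgroup.centralizer K : Set G) := by
    rw [SetLike.mem_coe, Subgroup.mem_centralizer_iff]
    intro g hg
    have := hX1 g hg v hv
    rw [mul_inv_eq_one, mul_inv_eq_iff_eq_mul] at this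
    exact this.symm
  have hv1 : v = fun _ => v 1 := by
    funext j
    exact hX3 v hv j 1
  by_contra hne
  refine hX2 (v 1) hz ?_ (by rw [hv, ← hv1])
  intro h
  apply hne
  rw [hv, hv1, h]
  exact map_one inl

omit [TopologicalSpace (Wr G)] [T1Space (Wr G)] in
theorem cm_inl_left (X : Wr G) (s : Fin 7 → G) (i : Fin 7) :
    (cm (inl s) X).left i = X.left i * s (X.right⁻¹ i) * (X.left i)⁻¹ * (s i)⁻¹ := by
  have h : ∀ (σ : Equiv.Perm (Fin 7)) (w : Fin 7 → G) (k : Fin 7),
      (mulAutArrow σ : MulAut (Fin 7 → G)) w k = w (σ⁻¹ k) := fun σ w k => rfl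
  simp only [cm, mul_left, mul_right, inv_left, inv_right, left_inl, right_inl, mul_one,
    Pi.mul_apply, h, Pi.inv_apply, inv_inv, inv_one, mul_inv_cancel, map_one, MulAut.one_apply]
  have : X.right (X.right⁻¹ i) = i := by simp
  rw [this]

theorem isOpen_one (hs : IsSemiTop (Wr G)) (hG : AD G) [Nontrivial G] :
    ∀ᶠ X in 𝓝 (1 : Wr G), X = 1 := by
  obtain ⟨b, hb⟩ := exists_ne (1 : G)
  have h1 : ∀ᶠ X in 𝓝 (1 : Wr G), ∀ j : Fin 7, cm (inl (Pi.mulSingle j b)) X = 1 := by
    rw [Filter.eventually_all]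
    intro j
    have hc : Tendsto (cm (inl (Pi.mulSingle j b) : Wr G)) (𝓝 1) (𝓝 1) := by
      have := (hs.cm (inl (Pi.mulSingle j b))).tendsto 1
      rwa [cm_one] at this
    filter_upwards [hc.eventually (base_one hs hG)] with X hX
    refine hX (cm (inl (Pi.mulSingle j b)) X).left ?_
    ext i
    · simp
    · simp [cm]
  filter_upwards [h1, base_one hs hG] with X hX1 hX2
  have hr : X.right = 1 := by
    ext j
    by_contra hj
    have h := hX1 j
    have h3 := congrFun (congrArg SemidirectProduct.left h) (X.right j)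
    have hne : X.right j ≠ j := by
      intro h'
      apply hj
      rw [h']
      rfl
    have hs : X.right⁻¹ (X.right j) = j := by simp
    rw [cm_inl_left, hs, Pi.mulSingle_eq_same, Pi.mulSingle_eq_of_ne hne] at h3
    apply hb
    simpa using h3
  exact hX2 X.left (by
    ext i
    · simp
    · simp [hr])

theorem discrete_of_AD (hs : IsSemiTop (Wr G)) (hG : AD G) [Nontrivial G] :
    DiscreteTopology (Wr G) := by
  have h1 : IsOpen ({1} : Set (Wr G)) := by
    rw [isOpen_iff_mem_nhds]
    rintro _ rfl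
    exact isOpen_one hs hG
  rw [discreteTopology_iff_isOpen_singleton]
  intro a
  have : ({a} : Set (Wr G)) = (fun x => a⁻¹ * x) ⁻¹' {1} := by
    ext x
    simp [eq_comm]
  rw [this]
  exact h1.preimage (hs.1.2 _)

end topo


/-! ### from topologies on `G` to topologies on the wreath product -/

theorem wr_topology (t : TopologicalSpace G) (htg : IsTopologicalGroup G) (ht2 : T2Space G)
    (hnd : ¬ DiscreteTopology G) :
    ∃ t' : TopologicalSpace (Wr G), @IsTopologicalGroup (Wr G) t' _ ∧ @T2Space (Wr G) t' ∧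
      ¬ @DiscreteTopology (Wr G) t' := by
  let tp : TopologicalSpace (Equiv.Perm (Fin 7)) := ⊥
  have hdp : DiscreteTopology (Equiv.Perm (Fin 7)) := ⟨rfl⟩
  let t' : TopologicalSpace (Wr G) :=
    TopologicalSpace.induced (fun X : Wr G => (X.left, X.right)) inferInstance
  have hc : Continuous (fun X : Wr G => (X.left, X.right)) := continuous_induced_dom
  have hl : Continuous (fun X : Wr G => X.left) := continuous_fst.comp hc
  have hr : Continuous (fun X : Wr G => X.right) := continuous_snd.comp hc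
  have hinj : Function.Injective (fun X : Wr G => (X.left, X.right)) := by
    intro X Y h
    rw [Prod.mk.injEq] at h
    exact SemidirectProduct.ext h.1 h.2
  have hev : ∀ j : Fin 7, Continuous (fun p : Equiv.Perm (Fin 7) × (Fin 7 → G) =>
      p.2 (p.1 j)) := by
    intro j
    rw [continuous_prod_of_discrete_left]
    intro σ
    exact continuous_apply (σ j)
  have hev' : ∀ j : Fin 7, Continuous (fun p : Equiv.Perm (Fin 7) × (Fin 7 → G) =>
      p.2 (p.1⁻¹ j)) := by
    intro j
    rw [continuous_prod_of_discrete_left]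
    intro σ
    exact continuous_apply (σ⁻¹ j)
  refine ⟨t', ?_, ?_, ?_⟩
  · refine @IsTopologicalGroup.mk (Wr G) t' _ ⟨?_⟩ ⟨?_⟩
    · refine continuous_induced_rng.mpr ?_
      refine Continuous.prodMk ?_ ?_
      · refine continuous_pi fun j => ?_
        show Continuous fun p : Wr G × Wr G => p.1.left j * p.2.left (p.1.right⁻¹ j)
        refine Continuous.mul ?_ ?_
        · exact (continuous_apply j).comp (hl.comp continuous_fst)
        · exact (hev' j).comp ((hr.comp continuous_fst).prodMk (hl.comp continuous_snd))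
      · show Continuous fun p : Wr G × Wr G => p.1.right * p.2.right
        exact (continuous_of_discreteTopology (f := fun q : Equiv.Perm (Fin 7) ×
          Equiv.Perm (Fin 7) => q.1 * q.2)).comp
            ((hr.comp continuous_fst).prodMk (hr.comp continuous_snd))
    · refine continuous_induced_rng.mpr ?_
      refine Continuous.prodMk ?_ ?_
      · refine continuous_pi fun j => ?_
        show Continuous fun p : Wr G => (p.left (p.right⁻¹⁻¹ j))⁻¹
        simp only [inv_inv]
        exact ((hev j).comp (hr.prodMk hl)).inv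
      · show Continuous fun p : Wr G => p.right⁻¹
        exact (continuous_of_discreteTopology (f := fun q : Equiv.Perm (Fin 7) => q⁻¹)).comp hr
  · exact T2Space.of_injective_continuous hinj hc
  · intro hd
    apply hnd
    have h1 : Continuous (fun x : G => (inl (fun _ => x) : Wr G)) := by
      refine continuous_induced_rng.mpr ?_
      refine Continuous.prodMk ?_ ?_
      · exact continuous_pi fun j => continuous_id
      · exact continuous_const
    refine DiscreteTopology.of_continuous_injective h1 ?_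
    intro x y h
    have := congrFun (congrArg SemidirectProduct.left h) 0
    simpa using this


theorem IsQuasiTop.isSemiTop {H : Type*} [Group H] [TopologicalSpace H] (h : IsQuasiTop H) :
    IsSemiTop H := by
  have hinv : Continuous fun x : H => x⁻¹ := by simpa using h.1.2 1
  refine ⟨⟨fun a => ?_, fun a => ?_⟩, h.2⟩
  · simpa using h.1.1 a⁻¹
  · simpa [Function.comp_def] using (h.1.2 a).comp hinv

theorem isQuasiTop_of_isTopologicalGroup {H : Type*} [Group H] [TopologicalSpace H]
    [IsTopologicalGroup H] : IsQuasiTop H :=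
  ⟨⟨fun _ => by fun_prop, fun _ => by fun_prop⟩, ⟨fun _ => by fun_prop, fun _ => by fun_prop⟩⟩

/-- The main transfer: a nondiscrete `T₁` [semi]-topology on `G ≀ Sym(7)` yields a nondiscrete
Hausdorff group topology on the countable group `G`. -/
theorem transfer [Countable G] (t : TopologicalSpace (Wr G)) (hs : IsSemiTop (Wr G))
    (h1 : T1Space (Wr G)) (hnd : ¬ DiscreteTopology (Wr G)) :
    ∃ t : TopologicalSpace G, @IsTopologicalGroup G t _ ∧ @T2Space G t ∧
      ¬ @DiscreteTopology G t := by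
  refine markov fun hG => hnd ?_
  rcases subsingleton_or_nontrivial G with hsub | hnt
  · have : Finite (Wr G) := Finite.of_equiv _ (SemidirectProduct.equivProd
      (φ := (mulAutArrow : Equiv.Perm (Fin 7) →* MulAut (Fin 7 → G)))).symm
    infer_instance
  · exact discrete_of_AD hs hG

theorem Topologizable.quasi {G : Type} [Group G] (h : Topologizable G) : QuasiTopologizable G := by
  obtain ⟨t, h1, h2, h3⟩ := h
  exact ⟨t, isQuasiTop_of_isTopologicalGroup, h2, h3⟩

theorem QuasiTopologizable.semi {G : Type} [Group G] (h : QuasiTopologizable G) :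
    SemiTopologizable G := by
  obtain ⟨t, h1, h2, h3⟩ := h
  exact ⟨t, h1.isSemiTop, h2, h3⟩

theorem countable_wr (G : Type) [Group G] [Countable G] : Countable (Wr G) :=
  (SemidirectProduct.equivProd
      (φ := (mulAutArrow : Equiv.Perm (Fin 7) →* MulAut (Fin 7 → G)))).injective.countable

theorem infinite_wr (G : Type) [Group G] [Infinite G] : Infinite (Wr G) :=
  Infinite.of_injective (fun x : G => (inl (fun _ => x) : Wr G)) (by
    intro x y h
    have := congrFun (congrArg SemidirectProduct.left h) 0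
    simpa using this)

/-- **Main theorem.** For a countable group `G` with wreath product `W = G ≀ Sym(7)`:
`G` has a nondiscrete Hausdorff group topology iff `W` has a nondiscrete Hausdorff (even `T₁`)
[semi]-topology, iff `W` has a nondiscrete Hausdorff [quasi]-topology. Hence a countable
counterexample to Q1, a countable counterexample to Q2 and a countable infinite group without
nondiscrete Hausdorff group topologies exist simultaneously. -/
theorem main_result :
    (∀ (G : Type) [Group G] [Countable G],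
      List.TFAE [Topologizable G, Topologizable (Wr G), QuasiTopologizable (Wr G),
        SemiTopologizable (Wr G), SemiTopologizableT1 (Wr G)]) ∧
    List.TFAE [
      ∃ (G : Type) (_ : Group G), Countable G ∧ Infinite G ∧ ¬ Topologizable G,
      ∃ (G : Type) (_ : Group G), Countable G ∧ Infinite G ∧ ¬ QuasiTopologizable G,
      ∃ (G : Type) (_ : Group G), Countable G ∧ Infinite G ∧ ¬ SemiTopologizable G] := by
  have main : ∀ (G : Type) [Group G] [Countable G],
      List.TFAE [Topologizable G, Topologizable (Wr G), QuasiTopologizable (Wr G),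
        SemiTopologizable (Wr G), SemiTopologizableT1 (Wr G)] := by
    intro G _ _
    tfae_have 1 → 2 := by
      rintro ⟨t, h1, h2, h3⟩
      exact wr_topology t h1 h2 h3
    tfae_have 2 → 3 := Topologizable.quasi
    tfae_have 3 → 4 := QuasiTopologizable.semi
    tfae_have 4 → 5 := by
      rintro ⟨t, h1, h2, h3⟩
      exact ⟨t, h1, inferInstance, h3⟩
    tfae_have 5 → 1 := by
      rintro ⟨t, h1, h2, h3⟩
      exact transfer t h1 h2 h3
    tfae_finish
  refine ⟨main, ?_⟩
  tfae_have 1 → 3 := by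
    rintro ⟨G, _, hc, hi, h⟩
    exact ⟨Wr G, inferInstance, countable_wr G, infinite_wr G,
      fun h' => h (((main G).out 0 3).mpr h')⟩
  tfae_have 3 → 2 := by
    rintro ⟨G, _, hc, hi, h⟩
    exact ⟨G, inferInstance, hc, hi, fun h' => h h'.semi⟩
  tfae_have 2 → 1 := by
    rintro ⟨G, _, hc, hi, h⟩
    exact ⟨G, inferInstance, hc, hi, fun h' => h h'.quasi⟩
  tfae_finish

end Pool.WT
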